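import Pool.Agent.W837.GB.Defs

/-! Project GB, part FINT: calculus. -/

set_option autoImplicit false

namespace Pool.Agent.W883.GB

open Pool.Agent.W837.GB

/-- primitive of `2 ms` -/
noncomputable def Fp (t : ℝ) : ℝ :=
  -t ^ 2 / 2 + t * Real.sqrt (t ^ 2 + 4) / 2 + 2 * Real.log (t + Real.sqrt (t ^ 2 + 4))

lemma sqrt_pos' (t : ℝ) : 0 < Real.sqrt (t ^ 2 + 4) := Real.sqrt_pos.2 (by positivity)

lemma abs_lt_sqrt (t : ℝ) : |t| < Real.sqrt (t ^ 2 + 4) := by
  rw [← Real.sqrt_sq_eq_abs]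
  exact Real.sqrt_lt_sqrt (sq_nonneg t) (by linarith)

lemma hasDerivAt_Fp (t : ℝ) : HasDerivAt Fp (2 * ms t) t := by
  have hS := sqrt_pos' t
  have hS2 : Real.sqrt (t ^ 2 + 4) ^ 2 = t ^ 2 + 4 := Real.sq_sqrt (by positivity)
  have hpos : 0 < t + Real.sqrt (t ^ 2 + 4) := by
    have := abs_lt_sqrt t
    have := neg_abs_le t
    linarith
  have h1 : HasDerivAt (fun t : ℝ => t ^ 2 + 4) (2 * t) t := by
    simpa using (hasDerivAt_pow 2 t).add_const 4
  have h2 : HasDerivAt (fun t : ℝ => Real.sqrt (t ^ 2 + 4)) (2 * t / (2 * Real.sqrt (t ^ 2 + 4))) t :=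
    h1.sqrt (by positivity)
  have h3 : HasDerivAt (fun t : ℝ => t * Real.sqrt (t ^ 2 + 4))
      (1 * Real.sqrt (t ^ 2 + 4) + t * (2 * t / (2 * Real.sqrt (t ^ 2 + 4)))) t :=
    (hasDerivAt_id t).mul h2
  have h4 : HasDerivAt (fun t : ℝ => t + Real.sqrt (t ^ 2 + 4))
      (1 + 2 * t / (2 * Real.sqrt (t ^ 2 + 4))) t := (hasDerivAt_id t).add h2
  have h5 := h4.log hpos.ne'
  have h6 : HasDerivAt (fun t : ℝ => -t ^ 2 / 2) (-(2 * t) / 2) t := by
    have := ((hasDerivAt_pow 2 t).neg).div_const 2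
    simpa using this
  have h7 := (h6.add (h3.div_const 2)).add (h5.const_mul 2)
  refine h7.congr_deriv ?_
  unfold ms
  set S := Real.sqrt (t ^ 2 + 4) with hSd
  have e1 : (1 + 2 * t / (2 * S)) / (t + S) = 1 / S := by
    field_simp
    ring
  rw [e1]
  field_simp
  nlinarith

lemma cont_ms : Continuous ms := by
  unfold ms
  fun_prop

lemma ms_bd {t : ℝ} (ht : 0 ≤ t) : 0 ≤ ms t ∧ ms t ≤ 1 := by
  unfold ms
  constructor
  · have := abs_lt_sqrt t
    rw [abs_of_nonneg ht] at this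
    linarith
  · have : Real.sqrt (t ^ 2 + 4) ≤ t + 2 := by
      rw [Real.sqrt_le_left (by linarith)]
      nlinarith
    linarith

theorem fint : S_FINT := by
  refine ⟨2, ?_⟩
  intro δ L hδ hδ1 hL
  have hI : ∀ a b : ℝ, IntervalIntegrable (fun t => 2 * ms t) MeasureTheory.volume a b := fun a b =>
    (cont_ms.const_mul 2).intervalIntegrable a b
  have h0L : ∫ t in (0 : ℝ)..L, 2 * ms t = Fp L - Fp 0 :=
    intervalIntegral.integral_eq_sub_of_hasDerivAt (fun t _ => hasDerivAt_Fp t) (hI 0 L)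
  have hsplit : (∫ t in (0 : ℝ)..δ, 2 * ms t) + ∫ t in δ..L, 2 * ms t = ∫ t in (0 : ℝ)..L, 2 * ms t :=
    intervalIntegral.integral_add_adjacent_intervals (hI 0 δ) (hI δ L)
  have hδI : |∫ t in (0 : ℝ)..δ, 2 * ms t| ≤ 2 * δ := by
    have := intervalIntegral.norm_integral_le_of_norm_le_const (a := 0) (b := δ) (C := 2)
      (f := fun t => 2 * ms t) (by
        intro t ht
        rw [Set.uIoc_of_le hδ.le] at ht
        obtain ⟨h1, h2⟩ := ms_bd ht.1.le
        rw [Real.norm_eq_abs, abs_of_nonneg (by linarith)]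
        linarith)
    rw [Real.norm_eq_abs, sub_zero, abs_of_pos hδ] at this
    exact this
  have hF0 : Fp 0 = 2 * Real.log 2 := by
    unfold Fp
    have : Real.sqrt ((0 : ℝ) ^ 2 + 4) = 2 := by
      rw [show ((0 : ℝ) ^ 2 + 4) = 2 ^ 2 by norm_num]
      exact Real.sqrt_sq (by norm_num)
    rw [this]
    norm_num
  have hLpos : 0 < L := by linarith
  set S := Real.sqrt (L ^ 2 + 4) with hS
  have hSpos : 0 < S := sqrt_pos' L
  have hS2 : S ^ 2 = L ^ 2 + 4 := Real.sq_sqrt (by positivity)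
  have hLS : L ≤ S := by
    have := abs_lt_sqrt L
    rw [abs_of_pos hLpos] at this
    exact this.le
  have hmain : |2 * Real.log L - (Fp L - Fp 0) + 1| ≤ 2 / L ^ 2 := by
    rw [hF0]
    have e1 : Fp L = 2 * L / (S + L) + 2 * Real.log (L + S) := by
      unfold Fp
      rw [← hS]
      have : -L ^ 2 / 2 + L * S / 2 = 2 * L / (S + L) := by
        field_simp
        nlinarith
      rw [this]
    have e2 : 2 * Real.log L - (Fp L - 2 * Real.log 2) + 1 =
        (1 - 2 * L / (S + L)) - 2 * Real.log ((L + S) / (2 * L)) := by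
      rw [e1, Real.log_div (by positivity) (by positivity), Real.log_mul (by norm_num) hLpos.ne']
      ring
    rw [e2]
    have e3 : 1 - 2 * L / (S + L) = 4 / (S + L) ^ 2 := by
      field_simp
      nlinarith
    have e4 : (L + S) / (2 * L) = 1 + 4 / ((S + L) * (2 * L)) := by
      field_simp
      nlinarith
    have e5 : 4 / (S + L) ^ 2 ≤ 1 / L ^ 2 := by
      rw [div_le_div_iff₀ (by positivity) (by positivity)]
      nlinarith
    have e6 : 4 / ((S + L) * (2 * L)) ≤ 1 / L ^ 2 := by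
      rw [div_le_div_iff₀ (by positivity) (by positivity)]
      nlinarith
    have e7 : 0 ≤ 4 / (S + L) ^ 2 := by positivity
    have e8 : 0 ≤ 4 / ((S + L) * (2 * L)) := by positivity
    have e9 : 0 ≤ Real.log ((L + S) / (2 * L)) := by
      apply Real.log_nonneg
      rw [e4]
      linarith
    have e10 : Real.log ((L + S) / (2 * L)) ≤ 1 / L ^ 2 := by
      have := Real.log_le_sub_one_of_pos (x := (L + S) / (2 * L)) (by positivity)
      rw [e4] at this ⊢
      linarith
    rw [e3, abs_le]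
    have e11 : 2 / L ^ 2 = 2 * (1 / L ^ 2) := by ring
    rw [e11]
    constructor <;> linarith
  have hfin : 2 * Real.log L - (∫ t in δ..L, 2 * ms t) + 1 =
      (2 * Real.log L - (Fp L - Fp 0) + 1) + ∫ t in (0 : ℝ)..δ, 2 * ms t := by
    rw [← h0L, ← hsplit]
    ring
  rw [hfin]
  refine (abs_add_le _ _).trans ?_
  linarith

end Pool.Agent.W883.GB
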